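import Mathlib

set_option autoImplicit false

/-! A block with at most the average number of bad indices. -/

open Finset

namespace Pool.Agent.TH779.AG

open scoped Classical

/-- among `N` indices with at most `P` bad ones there is a block of `k` indices with at most
`2 k P / N` bad ones -/
theorem few_block (bad : ℕ → Prop) (j0 N k P : ℕ) (hk : 1 ≤ k) (hN : k ≤ N)
    (hbad : ((range N).filter (fun i => bad (j0 + i))).card ≤ P) :
    ∃ i, i + k ≤ N ∧ ((range k).filter (fun l => bad (j0 + i + l))).card * N ≤ 2 * k * P := by
  set B := N / k with hB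
  have hB1 : 1 ≤ B := (Nat.one_le_div_iff (by omega)).2 hN
  have hBN : k * B ≤ N := Nat.mul_div_le N k
  have hBN2 : N < k * (B + 1) := by
    have := Nat.lt_mul_div_succ N (show 0 < k by omega)
    exact this
  set cnt : ℕ → ℕ := fun s => ((range k).filter (fun l => bad (j0 + s * k + l))).card with hcnt
  have hsum : ∑ s ∈ range B, cnt s ≤ P := by
    refine le_trans ?_ hbad
    have h1 : ∀ s ∈ range B, cnt s =
        (((range N).filter (fun i => bad (j0 + i))).filter (fun i => i / k = s)).card := by
      intro s hs
      rw [mem_range] at hs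
      apply card_bij (fun (l : ℕ) _ => s * k + l)
      · intro l hl
        rw [mem_filter, mem_range] at hl
        rw [mem_filter, mem_filter, mem_range]
        have h2 : s * k + k ≤ N := by
          calc s * k + k = k * (s + 1) := by ring
            _ ≤ k * B := Nat.mul_le_mul_left k hs
            _ ≤ N := hBN
        refine ⟨⟨by omega, ?_⟩, ?_⟩
        · rw [← add_assoc]; exact hl.2
        · rw [Nat.add_comm, Nat.add_mul_div_right _ _ (by omega), Nat.div_eq_of_lt hl.1, zero_add]
      · intro l _ l' _ h
        omega
      · intro i hi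
        rw [mem_filter, mem_filter, mem_range] at hi
        obtain ⟨⟨h2, h3⟩, h4⟩ := hi
        have h5 := Nat.div_add_mod i k
        have h6 := Nat.mod_lt i (show 0 < k by omega)
        refine ⟨i % k, ?_, ?_⟩
        · rw [mem_filter, mem_range]
          refine ⟨h6, ?_⟩
          have h7 : j0 + s * k + i % k = j0 + i := by
            rw [← h4]
            have h8 : k * (i / k) = i / k * k := Nat.mul_comm _ _
            omega
          rw [h7]
          exact h3
        · rw [← h4]
          have h8 : k * (i / k) = i / k * k := Nat.mul_comm _ _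
          omega
    rw [sum_congr rfl h1]
    have h2 : ∑ s ∈ range B, (((range N).filter (fun i => bad (j0 + i))).filter (fun i => i / k = s)).card =
        ((range B).biUnion (fun s => ((range N).filter (fun i => bad (j0 + i))).filter
          (fun i => i / k = s))).card := by
      rw [card_biUnion]
      intro s _ t _ hst
      apply Finset.disjoint_left.2
      intro i hi hi'
      rw [mem_filter] at hi hi'
      exact hst (hi.2.symm.trans hi'.2)
    rw [h2]
    apply card_le_card
    intro i hi
    rw [mem_biUnion] at hi
    obtain ⟨s, _, hs⟩ := hi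
    exact (mem_filter.1 hs).1
  obtain ⟨s, hs, hsm⟩ : ∃ s ∈ range B, cnt s * B ≤ P := by
    by_contra hcon
    push Not at hcon
    have h1 : ∑ s ∈ range B, P < ∑ s ∈ range B, cnt s * B := by
      apply sum_lt_sum_of_nonempty ⟨0, mem_range.2 (by omega)⟩
      exact hcon
    rw [sum_const, card_range, smul_eq_mul, ← sum_mul] at h1
    have h2 : (∑ s ∈ range B, cnt s) * B ≤ P * B := Nat.mul_le_mul_right B hsum
    rw [Nat.mul_comm P B] at h2
    omega
  rw [mem_range] at hs
  refine ⟨s * k, ?_, ?_⟩
  · calc s * k + k = k * (s + 1) := by ring
      _ ≤ k * B := Nat.mul_le_mul_left k hs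
      _ ≤ N := hBN
  · have h1 : N ≤ 2 * k * B := by
      have h2 : k * (B + 1) ≤ 2 * k * B := by nlinarith
      omega
    calc ((range k).filter (fun l => bad (j0 + s * k + l))).card * N ≤ cnt s * (2 * k * B) :=
          Nat.mul_le_mul_left _ h1
      _ = 2 * k * (cnt s * B) := by ring
      _ ≤ 2 * k * P := Nat.mul_le_mul_left _ hsm

end Pool.Agent.TH779.AG
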