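import Pool.Agent.TH779.AG.Main
import Pool.Agent.TH779.AG.Blk
import Pool.Agent.H362R2.RQ.Shapes

set_option autoImplicit false
set_option maxHeartbeats 4000000

/-! Chains of large gaps between primes of a residue class: almost all gaps of a chain of `k` gaps are
at least `c / k` times the record size. Adapted from `Pool.Agent.TH915.UC.Fin` (helper915). -/

open Finset Filter

namespace Pool.Agent.TH779.AG

open Pool.Agent.TH915.UC
open Pool.Agent.H378R2 (SieveAsymp BVrel)
open Pool.Agent.H256R2.SC (ff)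
open Pool.Agent.H312R2.RG (ev_ff)
open Pool.Agent.H362R2.RQ (ev_bad dvd_of_primes)

open scoped Classical

/-- from a window to a run of primes -/
theorem run_of_window' (κ : ℝ) (hκ : 0 < κ) (n : ℕ) (F g : ℝ) (hF : 0 ≤ F) (N : Finset ℕ)
    (hN : ∀ s : ℕ, s ∈ N ↔ (s : ℝ) ≤ F ∧ (n + s).Prime) (k : ℕ) (hk : 1 ≤ k)
    (hcard : (k : ℝ) + κ * (prs (clo g) N).card < N.card) :
    ∃ j : ℕ, (∀ i ≤ k, ∃ s ∈ N, Nat.nth Nat.Prime (j + i) = n + s) ∧
      κ * (((range k).filter (fun i => (Nat.nth Nat.Prime (j + i + 1) : ℝ) - Nat.nth Nat.Prime (j + i) ≤ g)).card : ℝ) ≤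
        2 * k := by
  set p : ℕ → ℕ := Nat.nth Nat.Prime with hp
  have hpm : StrictMono p := Nat.nth_strictMono Nat.infinite_setOf_prime
  have hpp : ∀ i, (p i).Prime := fun i => Nat.prime_nth_prime i
  set h : ℕ := ⌊F⌋₊ with hh
  set j0 := Nat.count Nat.Prime n with hj0
  set j1 := Nat.count Nat.Prime (n + h + 1) with hj1
  -- the index of a prime
  have hidx : ∀ i, n ≤ p i → p i ≤ n + h → (p i - n) ∈ N := by
    intro i h1 h2
    rw [hN]
    have h3 : n + (p i - n) = p i := by omega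
    rw [h3]
    refine ⟨?_, hpp i⟩
    have : p i - n ≤ h := by omega
    exact (Nat.le_floor_iff hF).1 this
  have hlow : ∀ i, j0 ≤ i → n ≤ p i := by
    intro i hi
    by_contra hcon
    push Not at hcon
    have h1 : i < Nat.count Nat.Prime n := (Nat.lt_nth_iff_count_lt Nat.infinite_setOf_prime).symm.1 hcon |> fun h => by
      exact h
    omega
  have hupp : ∀ i, i < j1 → p i ≤ n + h := by
    intro i hi
    have h1 : p i < n + h + 1 := Nat.nth_lt_of_lt_count hi
    omega
  have hj01 : j0 ≤ j1 := Nat.count_monotone _ (by omega)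
  have hNcard : N.card = j1 - j0 := by
    have h1 : N = (Finset.Ico j0 j1).image (fun i => p i - n) := by
      ext s
      rw [mem_image]
      constructor
      · intro hs
        have hs' := (hN s).1 hs
        refine ⟨Nat.count Nat.Prime (n + s), ?_, ?_⟩
        · rw [mem_Ico]
          refine ⟨Nat.count_monotone _ (by omega), ?_⟩
          have h2 : s ≤ h := Nat.le_floor hs'.1
          have h3 : Nat.count Nat.Prime (n + s) < Nat.count Nat.Prime (n + s + 1) := by
            rw [Nat.count_succ, if_pos hs'.2]; omega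
          exact lt_of_lt_of_le h3 (Nat.count_monotone _ (by omega))
        · rw [hp, Nat.nth_count hs'.2]; omega
      · rintro ⟨i, hi, rfl⟩
        rw [mem_Ico] at hi
        exact hidx i (hlow i hi.1) (hupp i hi.2)
    rw [h1, Finset.card_image_of_injOn, Nat.card_Ico]
    intro i hi i' hi' hii
    simp only [coe_Ico, Set.mem_Ico] at hi hi'
    have h2 := hlow i hi.1
    have h3 := hlow i' hi'.1
    simp only at hii
    exact hpm.injective (by omega)
  -- bad indices
  set bad : ℕ → Prop := fun i => (p (i + 1) : ℝ) ≤ p i + g with hbad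
  have hbadcard : ((range (N.card - 1)).filter (fun i => bad (j0 + i))).card ≤ (prs (clo g) N).card := by
    have h1 : ((range (N.card - 1)).filter (fun i => bad (j0 + i))).image
        (fun i => (p (j0 + i) - n, p (j0 + i + 1) - n)) ⊆ prs (clo g) N := by
      intro x hx
      rw [mem_image] at hx
      obtain ⟨i, hi, rfl⟩ := hx
      rw [mem_filter, mem_range] at hi
      have h2 := hlow (j0 + i) (by omega)
      have h3 := hlow (j0 + i + 1) (by omega)
      have h4 := hupp (j0 + i) (by omega)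
      have h5 := hupp (j0 + i + 1) (by omega)
      have h6 := hpm (show j0 + i < j0 + i + 1 by omega)
      unfold prs
      refine mem_filter.2 ⟨mem_product.2 ⟨hidx _ h2 h4, hidx _ h3 h5⟩, ?_⟩
      refine ⟨?_, ?_⟩
      · simp only
        omega
      · simp only
        rw [Nat.cast_sub h3, Nat.cast_sub h2]
        have := hi.2
        simp only [hbad] at this
        linarith
    rw [← Finset.card_image_of_injOn (s := (range (N.card - 1)).filter (fun i => bad (j0 + i)))
      (f := fun i => (p (j0 + i) - n, p (j0 + i + 1) - n))]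
    · exact card_le_card h1
    · intro i hi i' hi' hii
      simp only [Prod.mk.injEq] at hii
      have h2 := hlow (j0 + i) (by omega)
      have h3 := hlow (j0 + i') (by omega)
      have h4 : j0 + i = j0 + i' := hpm.injective (by omega)
      omega
  have hk1 : (1 : ℝ) ≤ k := by exact_mod_cast hk
  have hP0 : (0 : ℝ) ≤ ((prs (clo g) N).card : ℝ) := Nat.cast_nonneg _
  have hkN : k < N.card := by
    have h1 : 0 ≤ κ * ((prs (clo g) N).card : ℝ) := mul_nonneg hκ.le hP0
    have : (k : ℝ) < N.card := by linarith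
    exact_mod_cast this
  obtain ⟨i, hi, hgood⟩ := few_block bad j0 (N.card - 1) k (prs (clo g) N).card hk (by omega) hbadcard
  refine ⟨j0 + i, ?_, ?_⟩
  · intro l hl
    have h1 := hlow (j0 + i + l) (by omega)
    have h2 := hupp (j0 + i + l) (by omega)
    exact ⟨p (j0 + i + l) - n, hidx _ h1 h2, by omega⟩
  · have h1 : (range k).filter (fun l => (p (j0 + i + l + 1) : ℝ) - p (j0 + i + l) ≤ g) =
        (range k).filter (fun l => bad (j0 + i + l)) := by
      apply filter_congr
      intro l _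
      simp only [hbad]
      constructor
      · intro h; linarith
      · intro h; linarith
    rw [h1]
    set B := ((range k).filter (fun l => bad (j0 + i + l))).card with hB
    have h2 : ((N.card - 1 : ℕ) : ℝ) = (N.card : ℝ) - 1 := by
      rw [Nat.cast_sub (by omega)]
      norm_num
    have h3 : (B : ℝ) * ((N.card : ℝ) - 1) ≤ 2 * k * (prs (clo g) N).card := by
      rw [← h2]
      exact_mod_cast hgood
    have hn0 : (0 : ℝ) < (N.card : ℝ) - 1 := by
      have : (k : ℝ) + 1 ≤ N.card := by exact_mod_cast hkN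
      linarith
    have h4 : κ * ((prs (clo g) N).card : ℝ) ≤ (N.card : ℝ) - 1 := by linarith
    have h5 : (κ * (B : ℝ)) * ((N.card : ℝ) - 1) ≤ (2 * k) * ((N.card : ℝ) - 1) := by
      calc (κ * (B : ℝ)) * ((N.card : ℝ) - 1) = κ * ((B : ℝ) * ((N.card : ℝ) - 1)) := by ring
        _ ≤ κ * (2 * k * (prs (clo g) N).card) := mul_le_mul_of_nonneg_left h3 hκ.le
        _ = (2 * k) * (κ * (prs (clo g) N).card) := by ring
        _ ≤ _ := mul_le_mul_of_nonneg_left h4 (by positivity)
    exact le_of_mul_le_mul_right h5 hn0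

/-- almost all gaps of a chain have `1 / k` times the record size -/
theorem almost_all_of (h5 : SieveAsymp) (hbv : BVrel) : ∃ c : ℝ, 0 < c ∧ ∀ ε : ℝ, 0 < ε → ε ≤ 1 →
    ∀ q : ℕ, Squarefree q → ∀ a : ℕ, a.Coprime q →
    ∃ X₀ : ℝ, ∀ X : ℝ, X₀ ≤ X → ∀ k : ℕ, 1 ≤ k → (k : ℝ) * q.totient ≤ c * Real.log (Real.log X) →
    X ^ (7 / 8 : ℝ) ≤ ({n : ℕ | X < Nat.nth Nat.Prime n ∧ (Nat.nth Nat.Prime (n + k) : ℝ) ≤ 4 * X ∧
      (∀ i ≤ k, Nat.nth Nat.Prime (n + i) ≡ a [MOD q]) ∧
      (({i : ℕ | i < k ∧ (Nat.nth Nat.Prime (n + i + 1) : ℝ) - Nat.nth Nat.Prime (n + i) <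
        c * ε / k * ff X}.ncard : ℕ) : ℝ) ≤ ε * k}.ncard : ℝ) := by
  obtain ⟨C₅, c₂, c₆, hC₅, hc₂, hc₆, hmain⟩ := exists_n' h5 hbv
  have hc0 : 0 < min (c₂ / (4 * C₅)) c₆ := lt_min (by positivity) hc₆
  refine ⟨min (c₂ / (4 * C₅)) c₆, hc0, fun ε hε hε1 q hq a haq => ?_⟩
  have hq0 : 0 < q := Nat.pos_of_ne_zero hq.ne_zero
  have hκ0 : 0 < 2 / ε := by positivity
  obtain ⟨X1, hX1⟩ := hmain (2 / ε) (by rw [le_div_iff₀ hε]; linarith) q hq0 a haq
  rw [← Filter.eventually_atTop]
  have hll : Tendsto (fun X : ℝ => Real.log (Real.log X)) atTop atTop :=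
    Real.tendsto_log_atTop.comp Real.tendsto_log_atTop
  filter_upwards [eventually_ge_atTop X1, ev_bad c₂ hc₂, ev_ff c₂ hc₂, eventually_ge_atTop (1 : ℝ),
    hll.eventually_ge_atTop 0] with X hX hbadX hff hX1' hllX
  intro k hk hkc
  set p : ℕ → ℕ := Nat.nth Nat.Prime with hp
  have hpm : StrictMono p := Nat.nth_strictMono Nat.infinite_setOf_prime
  set c := min (c₂ / (4 * C₅)) c₆ with hc
  set F := c₂ * ff X with hF
  have hF0 : 0 ≤ F := mul_nonneg hc₂.le hff.2.1
  set Good : Set ℕ := {n : ℕ | X < p n ∧ (p (n + k) : ℝ) ≤ 4 * X ∧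
      (∀ i ≤ k, p (n + i) ≡ a [MOD q]) ∧
      (({i : ℕ | i < k ∧ (p (n + i + 1) : ℝ) - p (n + i) < c * ε / k * ff X}.ncard : ℕ) : ℝ) ≤ ε * k} with hGood
  have hfinG : Good.Finite := by
    apply (Set.finite_Iic ⌊4 * X⌋₊).subset
    intro n hn
    rw [Set.mem_Iic]
    apply Nat.le_floor
    have h1 : n ≤ p (n + k) := (Nat.le_add_right n k).trans (hpm.id_le (n + k))
    have h2 : (n : ℝ) ≤ p (n + k) := by exact_mod_cast h1
    exact h2.trans hn.2.1
  by_contra hlt
  push Not at hlt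
  set G0 : Finset ℕ := hfinG.toFinset with hG0
  have hG0card : (G0.card : ℝ) < X ^ (7 / 8 : ℝ) := by
    rw [hG0, ← Set.ncard_eq_toFinset_card Good hfinG]
    exact hlt
  set bad : Finset ℕ := G0.biUnion (fun j => Icc (p j - ⌊F⌋₊) (p j)) with hbaddef
  have hbadcard : (bad.card : ℝ) ≤ X ^ (9 / 10 : ℝ) := by
    have h1 : bad.card ≤ G0.card * (⌊F⌋₊ + 1) := by
      refine card_biUnion_le_card_mul _ _ _ (fun j _ => ?_)
      rw [Nat.card_Icc]
      omega
    have h2 : (bad.card : ℝ) ≤ G0.card * ((⌊F⌋₊ : ℝ) + 1) := by exact_mod_cast h1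
    have h3 : (⌊F⌋₊ : ℝ) ≤ F := Nat.floor_le hF0
    calc (bad.card : ℝ) ≤ G0.card * ((⌊F⌋₊ : ℝ) + 1) := h2
      _ ≤ X ^ (7 / 8 : ℝ) * (F + 1) := by
          apply mul_le_mul hG0card.le (by linarith) (by positivity)
          exact Real.rpow_nonneg (by linarith) _
      _ ≤ X ^ (9 / 10 : ℝ) := hbadX
  have hk1 : (1 : ℝ) ≤ k := by exact_mod_cast hk
  obtain ⟨n, hn1, hn2, hn3, hn4, N, hN1, hN2, hN3⟩ := hX1 X hX k hk (by
    refine hkc.trans ?_
    exact mul_le_mul_of_nonneg_right (min_le_right _ _) hllX) bad hbadcard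
  obtain ⟨j, hj1, hj2⟩ := run_of_window' (2 / ε) hκ0 n F (c₂ * ff X / (2 * (C₅ * k * (2 / ε)))) hF0 N hN1 k hk hN3
  have hjG : j ∈ Good := by
    refine ⟨?_, ?_, ?_, ?_⟩
    · obtain ⟨s, hs, hsp⟩ := hj1 0 (by omega)
      rw [Nat.add_zero] at hsp
      rw [hp, hsp]
      push_cast
      have : (0 : ℝ) ≤ s := Nat.cast_nonneg s
      linarith
    · obtain ⟨s, hs, hsp⟩ := hj1 k le_rfl
      have h1 := ((hN1 s).1 hs).1
      have h2 := hff.2.2
      rw [hp, hsp]
      push_cast
      have : F ≤ X := by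
        rw [hF]; linarith [mul_nonneg hc₂.le hff.2.1]
      linarith
    · intro i hi
      obtain ⟨s, hs, hsp⟩ := hj1 i hi
      rw [hp, hsp]
      have h1 : q ∣ n := dvd_of_primes q n hq hn4
      have h2 : n + s ≡ 0 + a [MOD q] := Nat.ModEq.add (Nat.modEq_zero_iff_dvd.2 h1) (hN2 s hs)
      rwa [zero_add] at h2
    · have h1 : {i : ℕ | i < k ∧ (p (j + i + 1) : ℝ) - p (j + i) < c * ε / k * ff X} ⊆
          (((range k).filter (fun i => (p (j + i + 1) : ℝ) - p (j + i) ≤
            c₂ * ff X / (2 * (C₅ * k * (2 / ε)))) : Finset ℕ) : Set ℕ) := by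
        intro i hi
        rw [Set.mem_ofPred_eq] at hi
        rw [Finset.mem_coe, mem_filter, mem_range]
        refine ⟨hi.1, hi.2.le.trans ?_⟩
        have hk0 : (0 : ℝ) < k := by linarith
        calc c * ε / k * ff X ≤ (c₂ / (4 * C₅)) * ε / k * ff X := by
              apply mul_le_mul_of_nonneg_right _ hff.2.1
              apply div_le_div_of_nonneg_right _ hk0.le
              exact mul_le_mul_of_nonneg_right (min_le_left _ _) hε.le
          _ = c₂ * ff X / (2 * (C₅ * k * (2 / ε))) := by field_simp; ring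
      have h2 := Set.ncard_le_ncard h1 (Finset.finite_toSet _)
      rw [Set.ncard_coe_finset] at h2
      have h3 : (({i : ℕ | i < k ∧ (p (j + i + 1) : ℝ) - p (j + i) < c * ε / k * ff X}.ncard : ℕ) : ℝ) ≤
          (((range k).filter (fun i => (p (j + i + 1) : ℝ) - p (j + i) ≤
            c₂ * ff X / (2 * (C₅ * k * (2 / ε))))).card : ℝ) := by exact_mod_cast h2
      refine h3.trans ?_
      have h4 : (2 / ε) * (((range k).filter (fun i => (p (j + i + 1) : ℝ) - p (j + i) ≤
            c₂ * ff X / (2 * (C₅ * k * (2 / ε))))).card : ℝ) ≤ 2 * k := hj2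
      rw [div_mul_eq_mul_div, div_le_iff₀ hε] at h4
      linarith
  apply hn3
  rw [hbaddef, mem_biUnion]
  refine ⟨j, by rw [hG0, Set.Finite.mem_toFinset]; exact hjG, ?_⟩
  obtain ⟨s, hs, hsp⟩ := hj1 0 (by omega)
  rw [Nat.add_zero] at hsp
  have h1 : s ≤ ⌊F⌋₊ := Nat.le_floor ((hN1 s).1 hs).1
  rw [mem_Icc, hp, hsp]
  omega

end Pool.Agent.TH779.AG
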