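import Pool.Agent.TH915.UC.Main

set_option autoImplicit false
set_option maxHeartbeats 4000000

/-! Windows of record length with more than `k + κ P` primes, `P` pairs of which are close.
Adapted from `Pool.Agent.TH915.UC.Main` (helper915): the number `D` which measures the closeness is
proportional to `k κ` in place of `k ^ 2`. -/

open Finset Filter

namespace Pool.Agent.TH779.AG

open Pool.Agent.TH915.UC
open Pool.Agent.H378R2
open Pool.Agent.H312R2.RG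
open Pool.Agent.H318R2.Cr
open Pool.Agent.H398R2.PG (one_sub_sum_le_prod)
open Pool.Agent.H256R2.SC (ff)
open Pool.Agent.H362R2.RQ (thn thn_nonneg thn_le thn_le_one ev_RR)

open scoped Classical

/-- the final combination -/
theorem comb_pos' (N Cs ρ C k κ m D l : ℝ) (S0 ST SB S1 SP pr : ℝ) (hN : 0 < N) (hCs : 1 ≤ Cs) (hC : 1 ≤ C)
    (hρ : 0 < ρ) (hk : 1 ≤ k) (hκ : 1 ≤ κ) (hm0 : 0 ≤ m) (hm1 : 4 * Cs * k ≤ m * ρ) (hm2 : m * ρ ≤ 8 * Cs * k) (hml : m ≤ l)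
    (hl : 4 ≤ l) (hD : D = 128 * Cs ^ 3 * C * k * κ) (hpr : pr ≤ C * m ^ 2 / D)
    (h0 : S0 ≤ 2 * N) (hT : ST ≤ N / l ^ 3) (hB : SB ≤ N / l ^ 3) (h1 : m * (N * (ρ / Cs)) ≤ S1)
    (hP : SP ≤ pr * (N * (Cs * ρ ^ 2))) : 0 < S1 - k * S0 - κ * SP - m * ST - m * SB := by
  have hCs0 : 0 < Cs := by linarith
  have hC0 : 0 < C := by linarith
  have hk0 : 0 < k := by linarith
  have hD0 : 0 < D := by rw [hD]; positivity
  have hl0 : 0 < l := by linarith
  have e1 : 4 * k * N ≤ S1 := by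
    refine le_trans ?_ h1
    calc 4 * k * N = (4 * Cs * k) * (N / Cs) := by field_simp
      _ ≤ (m * ρ) * (N / Cs) := by gcongr
      _ = _ := by ring
  have e2 : k * S0 ≤ 2 * k * N := by nlinarith
  have hκ0 : 0 < κ := by linarith
  have e3 : κ * SP ≤ 1 / 2 * k * N := by
    have h2 : SP ≤ (C * m ^ 2 / D) * (N * (Cs * ρ ^ 2)) := hP.trans (by gcongr)
    have h3 : (C * m ^ 2 / D) * (N * (Cs * ρ ^ 2)) = (C * Cs / D) * (m * ρ) ^ 2 * N := by ring
    have h4 : (m * ρ) ^ 2 ≤ (8 * Cs * k) ^ 2 := by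
      apply pow_le_pow_left₀ (by positivity) hm2
    have h5 : (C * Cs / D) * (m * ρ) ^ 2 * N ≤ (C * Cs / D) * (8 * Cs * k) ^ 2 * N := by gcongr
    have h6 : κ * ((C * Cs / D) * (8 * Cs * k) ^ 2 * N) = 1 / 2 * k * N := by
      rw [hD]; field_simp; norm_num
    have h7 : SP ≤ (C * Cs / D) * (8 * Cs * k) ^ 2 * N := by linarith
    calc κ * SP ≤ κ * ((C * Cs / D) * (8 * Cs * k) ^ 2 * N) := mul_le_mul_of_nonneg_left h7 hκ0.le
      _ = _ := h6
  have e4 : ∀ s : ℝ, s ≤ N / l ^ 3 → m * s ≤ 1 / 16 * N := by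
    intro s hs
    calc m * s ≤ m * (N / l ^ 3) := mul_le_mul_of_nonneg_left hs hm0
      _ ≤ l * (N / l ^ 3) := mul_le_mul_of_nonneg_right hml (by positivity)
      _ = N / l ^ 2 := by field_simp
      _ ≤ N / 4 ^ 2 := by gcongr
      _ = 1 / 16 * N := by ring
  have e5 := e4 ST hT
  have e6 := e4 SB hB
  have : N ≤ k * N := by nlinarith
  linarith

/-- more than `k + κ P` primes, `P` close pairs -/
theorem exists_n' (h5 : SieveAsymp) (hbv : BVrel) : ∃ C₅ c₂ c₆ : ℝ, 1 ≤ C₅ ∧ 0 < c₂ ∧ 0 < c₆ ∧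
    ∀ κ : ℝ, 1 ≤ κ → ∀ q : ℕ, 0 < q → ∀ a : ℕ, a.Coprime q →
    ∃ X0 : ℝ, ∀ X : ℝ, X0 ≤ X → ∀ k : ℕ, 1 ≤ k → (k : ℝ) * q.totient ≤ c₆ * Real.log (Real.log X) →
    ∀ bad : Finset ℕ, (bad.card : ℝ) ≤ X ^ (9 / 10 : ℝ) →
    ∃ n : ℕ, X < n ∧ (n : ℝ) ≤ 3 * X ∧ n ∉ bad ∧ (∀ p : ℕ, p.Prime → p ∣ q → p ∣ n) ∧
      ∃ N : Finset ℕ, (∀ s : ℕ, s ∈ N ↔ (s : ℝ) ≤ c₂ * ff X ∧ (n + s).Prime) ∧ (∀ s ∈ N, s ≡ a [MOD q]) ∧
        (k : ℝ) + κ * (prs (clo (c₂ * ff X / (2 * (C₅ * k * κ)))) N).card < N.card := by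
  obtain ⟨Cs, hCs, hsums⟩ := sums h5
  obtain ⟨C, hC, hcov⟩ := covU
  obtain ⟨Aw, c₃', hc₃', hw1⟩ := weightsU 2 6
  obtain ⟨CM, hCM, hBEle⟩ := BE_PW_le
  have hc₃0 : 0 < min (c₃' / 2) 1 := lt_min (by positivity) one_pos
  obtain ⟨c₂, hc₂, hcov1⟩ := hcov (min (c₃' / 2) 1) hc₃0 (min_le_right _ _)
  have hCs0 : 0 < Cs := by linarith
  have hC0 : 0 < C := by linarith
  refine ⟨128 * Cs ^ 3 * C, c₂, c₂ / (64 * C * Cs * CM), ?_, hc₂, by positivity, fun κ hκ q hq a haq => ?_⟩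
  · have h1 : 1 ≤ Cs ^ 3 := one_le_pow₀ hCs
    nlinarith
  obtain ⟨X1, hcov2⟩ := hcov1 q hq a haq
  set Z := max q 4 with hZdef
  have hZ4 : 4 ≤ Z := le_max_right _ _
  obtain ⟨X3, hbvX⟩ := hbv Aw Z
  have hφ : (0 : ℝ) < q.totient := by exact_mod_cast Nat.totient_pos.2 hq
  have hφ1 : (1 : ℝ) ≤ q.totient := by exact_mod_cast Nat.totient_pos.2 hq
  have hll : Tendsto (fun X : ℝ => Real.log (Real.log X)) atTop atTop :=
    Real.tendsto_log_atTop.comp Real.tendsto_log_atTop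
  set c₆ := c₂ / (64 * C * Cs * CM) with hc₆
  have hc₆0 : 0 < c₆ := by positivity
  rw [← Filter.eventually_atTop]
  filter_upwards [hsums Z hZ4, hw1 Z, hBEle, eventually_ge_atTop X1, eventually_ge_atTop X3,
    ev_ff c₂ hc₂, Real.tendsto_log_atTop.eventually_ge_atTop (4 + 2 / c₃'), eventually_ge_atTop (40 : ℝ),
    hll.eventually_ge_atTop (1024 * Cs ^ 3 * C * c₆ * κ + 2 * Real.log 2000 + 10), ev_totient]
    with X hsX hwX hBEX hX1 hX3 hff hlX hX40 hllX htotX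
  intro k hk hkc bad hbad
  have hX0 : 0 < X := by linarith
  set l := Real.log X with hl
  have h2c : 0 < 2 / c₃' := by positivity
  have hl4 : 4 ≤ l := by linarith
  have hl0 : 0 < l := by linarith
  have hk1 : (1 : ℝ) ≤ k := by exact_mod_cast hk
  set A := Real.log l with hA
  have hlog2000 : 0 < Real.log 2000 := Real.log_pos (by norm_num)
  have hA10 : 10 ≤ A := by
    have : 0 ≤ 1024 * Cs ^ 3 * C * c₆ * κ := by positivity
    linarith
  obtain ⟨ps, S, hps, hS, hbvS⟩ := hbvX X hX3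
  -- D
  set D : ℝ := 128 * Cs ^ 3 * C * k * κ with hD
  have hC51 : 1 ≤ 128 * Cs ^ 3 * C := by
    have h1 : 1 ≤ Cs ^ 3 := one_le_pow₀ hCs
    nlinarith
  have hκ0 : 0 < κ := by linarith
  have hD1 : 1 ≤ D := by
    rw [hD]
    have h1 : 1 ≤ 128 * Cs ^ 3 * C * k := by nlinarith
    nlinarith
  have hly : A / 2 ≤ Real.log (yy X : ℝ) := by
    have h3 : 4000 ≤ l := by
      have h4 : l = Real.exp A := by rw [hA, Real.exp_log hl0]
      rw [h4]
      calc (4000 : ℝ) = 2 * 2000 := by norm_num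
        _ ≤ Real.exp 2 * Real.exp (Real.log 2000) := by
            rw [Real.exp_log (by norm_num)]
            have := Real.add_one_le_exp (2 : ℝ)
            nlinarith
        _ = Real.exp (2 + Real.log 2000) := by rw [Real.exp_add]
        _ ≤ Real.exp A := Real.exp_le_exp.2 (by
            have : 0 ≤ 1024 * Cs ^ 3 * C * c₆ * κ := by positivity
            linarith)
    have hyT2 : l / 2000 ≤ yy X := by
      have h4 : l / 1000 < (yy X : ℝ) + 1 := Nat.lt_floor_add_one _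
      linarith [show l / 1000 = l / 2000 + l / 2000 by ring]
    have h4 : Real.log (l / 2000) ≤ Real.log (yy X : ℝ) := Real.log_le_log (by positivity) hyT2
    rw [Real.log_div hl0.ne' (by norm_num)] at h4
    have : 0 ≤ 1024 * Cs ^ 3 * C * c₆ * κ := by positivity
    linarith
  have hD2 : D ≤ (Real.log (yy X : ℝ)) ^ 3 := by
    have h1 : (k : ℝ) ≤ c₆ * A := by nlinarith
    have h3 : (A / 2) ^ 3 ≤ (Real.log (yy X : ℝ)) ^ 3 := pow_le_pow_left₀ (by linarith) hly 3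
    refine le_trans ?_ h3
    have h4 : 1024 * Cs ^ 3 * C * c₆ * κ ≤ A := by linarith
    have h5 : (1 : ℝ) ≤ A := by linarith
    calc D ≤ 128 * Cs ^ 3 * C * (c₆ * A) * κ := by rw [hD]; gcongr
      _ = (1024 * Cs ^ 3 * C * c₆ * κ) * A / 8 := by ring
      _ ≤ A * A / 8 := by gcongr
      _ ≤ A * A * A / 8 := by
          have : A * A * 1 ≤ A * A * A := mul_le_mul_of_nonneg_left h5 (by positivity)
          linarith
      _ = (A / 2) ^ 3 := by ring
  obtain ⟨a0, Sv, Q, hSv, hQ, hSvc, hQc, hQp, hpq⟩ := hcov2 X hX1 ps S hps hS D hD1 hD2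
  set W := WW X S ps with hW
  have hWpos : 0 < W := WW_pos X S ps
  have hWr : (0 : ℝ) < (W : ℝ) := by exact_mod_cast hWpos
  have hφW : (0 : ℝ) < (W.totient : ℝ) := by exact_mod_cast Nat.totient_pos.2 hWpos
  -- rho
  set ρ := rh X W with hρ
  have hρeq : ρ = ((W : ℝ) / W.totient) / l := rfl
  have hρ0 : 0 < ρ := by rw [hρeq]; positivity
  have hφeq : (W.totient : ℝ) = W * BE (PW X S ps) := totient_WW X S ps
  have hBEpos : 0 < BE (PW X S ps) := BE_pos fun p hp => (mem_PW.1 hp).2.1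
  have hρinv : 1 / ρ ≤ l * (CM / A) := by
    have h1 : 1 / ρ = l * BE (PW X S ps) := by
      rw [hρeq, hφeq]; field_simp
    rw [h1]
    exact mul_le_mul_of_nonneg_left (hBEX Z ps S hZ4 hps hS) hl0.le
  -- m
  set m : ℕ := ⌈4 * Cs * k / ρ⌉₊ with hm
  have hx0 : 0 < 4 * Cs * k / ρ := by positivity
  have hm1 : 4 * Cs * k / ρ ≤ m := Nat.le_ceil _
  have hm2 : (m : ℝ) < 4 * Cs * k / ρ + 1 := Nat.ceil_lt_add_one hx0.le
  have hm1' : 1 ≤ m := Nat.ceil_pos.2 hx0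
  have hQ0 : (Q.card : ℝ) ≤ l := by
    have h1 : Q ⊆ Sv := fun t ht => (hQ t ht).1
    have h2 : (Q.card : ℝ) ≤ Sv.card := by exact_mod_cast card_le_card h1
    have h3 : min (c₃' / 2) 1 * l ≤ 1 * l := mul_le_mul_of_nonneg_right (min_le_right _ _) hl0.le
    linarith
  have hρle1 : ρ ≤ 1 := by
    have h1 := htotX S ps
    rw [div_le_iff₀ hl0] at h1
    rw [hρeq, div_le_one hl0, div_le_iff₀ hφW]
    linarith
  have hmQ : 2 * (4 * Cs * k / ρ) ≤ Q.card := by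
    have h1 : 2 * (4 * Cs * k / ρ) ≤ 8 * Cs * k * (l * (CM / A)) := by
      calc 2 * (4 * Cs * k / ρ) = 8 * Cs * k * (1 / ρ) := by ring
        _ ≤ _ := by gcongr
    refine h1.trans ?_
    have h2 : (k : ℝ) ≤ c₆ * A / q.totient := by
      rw [le_div_iff₀ hφ]; exact hkc
    calc 8 * Cs * k * (l * (CM / A)) ≤ 8 * Cs * (c₆ * A / q.totient) * (l * (CM / A)) := by gcongr
      _ = c₂ * l / (8 * C * q.totient) := by
          rw [hc₆]; field_simp; norm_num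
      _ ≤ Q.card := by
          rw [div_le_iff₀ (by positivity)]
          linarith
  have hx1 : 1 ≤ 4 * Cs * k / ρ := by
    rw [le_div_iff₀ hρ0]
    nlinarith
  have hmcard : m ≤ Q.card := by
    have h1 : (m : ℝ) ≤ Q.card := by linarith
    exact_mod_cast h1
  have hmρ1 : 4 * Cs * k ≤ m * ρ := by
    rwa [div_le_iff₀ hρ0] at hm1
  have hmρ2 : m * ρ ≤ 8 * Cs * k := by
    have h1 : (m : ℝ) ≤ 2 * (4 * Cs * k / ρ) := by linarith
    calc (m : ℝ) * ρ ≤ (2 * (4 * Cs * k / ρ)) * ρ := mul_le_mul_of_nonneg_right h1 hρ0.le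
      _ = 8 * Cs * k := by field_simp; norm_num
  have hml : (m : ℝ) ≤ l := by
    have h1 : (m : ℝ) ≤ Q.card := by exact_mod_cast hmcard
    linarith
  -- thinning
  set r : ℕ → ℕ → Prop := clo (c₂ * ff X / (2 * D)) with hr
  have hrirr : ∀ x, ¬ r x x := fun x h => lt_irrefl _ h.1
  obtain ⟨T0, hT0Q, hT0m, hT0p⟩ := thin r hrirr Q m hm1' hmcard
  have hQpos : (0 : ℝ) < Q.card := by
    have : 0 < Q.card := by omega
    exact_mod_cast this
  have hT0pr : ((prs r T0).card : ℝ) ≤ C * (m : ℝ) ^ 2 / D := by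
    refine hT0p.trans ?_
    calc (m : ℝ) ^ 2 / (Q.card : ℝ) ^ 2 * ((prs r Q).card : ℝ) ≤
        (m : ℝ) ^ 2 / (Q.card : ℝ) ^ 2 * (C * (Q.card : ℝ) ^ 2 / D) := by gcongr
      _ = C * (m : ℝ) ^ 2 / D := by field_simp
  have hT0ne : T0.Nonempty := by
    rw [← Finset.card_pos]; omega
  have hffl : c₂ * ff X ≤ l ^ 2 := hff.1
  have hT0prop : ∀ t ∈ T0, (t : ℝ) ≤ l ^ 2 ∧ t.Prime ∧ t ≡ a [MOD q] ∧ (a0 + t).Coprime W ∧ (t : ℝ) ≤ c₂ * ff X := by
    intro t ht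
    obtain ⟨g1, g2, g3, g4⟩ := hQ t (hT0Q ht)
    have g5 := (hSv t).1 g1
    exact ⟨g5.1.trans hffl, g2, g4, g5.2, g5.1⟩
  -- U
  set U := insert 0 (Sv \ T0) with hU
  have hUne : U.Nonempty := ⟨0, Finset.mem_insert_self _ _⟩
  have hUk : ∀ k ∈ U, (k : ℝ) ≤ l ^ 2 := by
    intro k hk
    rw [hU, Finset.mem_insert] at hk
    rcases hk with rfl | hk
    · push_cast; positivity
    · exact ((hSv k).1 (Finset.mem_sdiff.1 hk).1).1.trans hffl
  have hT0U : ∀ t ∈ T0, t ∉ U := by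
    intro t ht htU
    rw [hU, Finset.mem_insert] at htU
    rcases htU with h | h
    · exact (hT0prop t ht).2.1.ne_zero h
    · exact (Finset.mem_sdiff.1 h).2 ht
  have hUcard : (U.card : ℝ) ≤ c₃' * l := by
    have h1 : (U.card : ℝ) ≤ Sv.card + 1 := by
      have h2 : U.card ≤ (Sv \ T0).card + 1 := Finset.card_insert_le _ _
      have h3 : (Sv \ T0).card ≤ Sv.card := Finset.card_le_card Finset.sdiff_subset
      exact_mod_cast (by omega : U.card ≤ Sv.card + 1)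
    have h2 : min (c₃' / 2) 1 * l ≤ c₃' / 2 * l := mul_le_mul_of_nonneg_right (min_le_left _ _) hl0.le
    have h3 : 1 ≤ c₃' / 2 * l := by
      have h4 : 2 / c₃' ≤ l := by linarith
      rw [div_le_iff₀ hc₃'] at h4
      linarith
    linarith
  obtain ⟨V, T, Z₁, M, M', M₂, hV, hTnn, hTU, hZ1, hM1, hM2, hM', hM₂0, hM₂, hcl⟩ :=
    hwX ps S hps hS hbvS U hUk hUne hUcard
  obtain ⟨t0, ht0⟩ := hT0ne
  obtain ⟨hN0, hs0, hsT, hsB, hs1, hs2⟩ := hsX ps S a0 hps hS U V T Z₁ M M' M₂ hV hTnn hZ1 hM1 hM2 hM' hM₂0 hM₂ hcl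
    t0 (hT0prop t0 ht0).1 (hT0U t0 ht0)
  set N0 := Z₁ * (MPhi X / W) with hN0def
  set w : ℕ → ℝ := fun n => nu X W a0 n * V n with hw
  have hwnn : ∀ n, 0 ≤ w n := fun n => mul_nonneg (nu_nonneg _ _ _ _) (hV _).1
  -- the three sums over `T0`
  have hS1 : (m : ℝ) * (N0 * (ρ / Cs)) ≤ ∑ n ∈ Icc 1 ⌊3 * X⌋₊, w n * ∑ t ∈ T0, thn X (n + t) := by
    have h1 : ∑ n ∈ Icc 1 ⌊3 * X⌋₊, w n * ∑ t ∈ T0, thn X (n + t) =
        ∑ t ∈ T0, ∑ n ∈ Icc 1 ⌊3 * X⌋₊, nu X W a0 n * V n * thn X (n + t) := by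
      rw [Finset.sum_comm]
      refine Finset.sum_congr rfl fun n _ => ?_
      rw [Finset.mul_sum]
    rw [h1]
    have h2 : ∑ t ∈ T0, N0 * (ρ / Cs) ≤ ∑ t ∈ T0, ∑ n ∈ Icc 1 ⌊3 * X⌋₊, nu X W a0 n * V n * thn X (n + t) :=
      Finset.sum_le_sum fun t ht => hs1 t (hT0prop t ht).1 (hT0U t ht) (hT0prop t ht).2.2.2.1
    rw [Finset.sum_const, nsmul_eq_mul, hT0m] at h2
    exact h2
  set pc : ℕ → ℝ := fun n => ∑ x ∈ prs r T0, (if (n + x.1).Prime ∧ (n + x.2).Prime then 1 else 0) with hpc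
  have hSP : ∑ n ∈ Icc 1 ⌊3 * X⌋₊, w n * pc n ≤ ((prs r T0).card : ℝ) * (N0 * (Cs * ρ ^ 2)) := by
    have h1 : ∑ n ∈ Icc 1 ⌊3 * X⌋₊, w n * pc n =
        ∑ x ∈ prs r T0, ∑ n ∈ Icc 1 ⌊3 * X⌋₊, nu X W a0 n * V n *
          (if (n + x.1).Prime ∧ (n + x.2).Prime then 1 else 0) := by
      rw [Finset.sum_comm]
      refine Finset.sum_congr rfl fun n _ => ?_
      simp only [hpc]
      rw [Finset.mul_sum]
    rw [h1]
    have h2 : ∑ x ∈ prs r T0, ∑ n ∈ Icc 1 ⌊3 * X⌋₊, nu X W a0 n * V n *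
          (if (n + x.1).Prime ∧ (n + x.2).Prime then 1 else 0) ≤ ∑ x ∈ prs r T0, N0 * (Cs * ρ ^ 2) := by
      apply Finset.sum_le_sum
      intro x hx
      have hx1 : x ∈ T0 ×ˢ T0 ∧ r x.1 x.2 := by
        unfold prs at hx
        exact mem_filter.1 hx
      rw [mem_product] at hx1
      exact hs2 x.1 x.2 (hT0prop _ hx1.1.1).1 (hT0U _ hx1.1.1) (hT0prop _ hx1.1.2).1 (hT0U _ hx1.1.2) hx1.2.1.ne
    refine h2.trans (le_of_eq ?_)
    rw [Finset.sum_const, nsmul_eq_mul]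
  set bd : ℕ → ℝ := fun n => if n ∈ bad then 1 else 0 with hbd
  have hcomb := comb_pos' N0 Cs ρ C k κ m D l (∑ n ∈ Icc 1 ⌊3 * X⌋₊, w n) (∑ n ∈ Icc 1 ⌊3 * X⌋₊, w n * T n)
    (∑ n ∈ Icc 1 ⌊3 * X⌋₊, w n * bd n) (∑ n ∈ Icc 1 ⌊3 * X⌋₊, w n * ∑ t ∈ T0, thn X (n + t))
    (∑ n ∈ Icc 1 ⌊3 * X⌋₊, w n * pc n) ((prs r T0).card : ℝ) hN0 hCs hC hρ0 hk1 hκ (Nat.cast_nonneg _) hmρ1 hmρ2 hml
    hl4 hD hT0pr hs0 hsT (hsB bad hbad) hS1 hSP
  -- one `n`
  obtain ⟨n, hn, hnpos⟩ : ∃ n ∈ Icc 1 ⌊3 * X⌋₊, 0 < w n * (∑ t ∈ T0, thn X (n + t) - k - κ * pc n -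
      m * T n - m * bd n) := by
    by_contra hcon
    push Not at hcon
    have h1 := Finset.sum_nonpos hcon
    have h2 : ∑ n ∈ Icc 1 ⌊3 * X⌋₊, w n * (∑ t ∈ T0, thn X (n + t) - k - κ * pc n - m * T n - m * bd n) =
        ∑ n ∈ Icc 1 ⌊3 * X⌋₊, w n * ∑ t ∈ T0, thn X (n + t) - k * ∑ n ∈ Icc 1 ⌊3 * X⌋₊, w n -
        κ * ∑ n ∈ Icc 1 ⌊3 * X⌋₊, w n * pc n - m * ∑ n ∈ Icc 1 ⌊3 * X⌋₊, w n * T n -
        m * ∑ n ∈ Icc 1 ⌊3 * X⌋₊, w n * bd n := by
      rw [Finset.mul_sum, Finset.mul_sum, Finset.mul_sum, Finset.mul_sum, ← Finset.sum_sub_distrib,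
        ← Finset.sum_sub_distrib, ← Finset.sum_sub_distrib, ← Finset.sum_sub_distrib]
      refine Finset.sum_congr rfl fun n _ => ?_
      ring
    rw [h2] at h1
    linarith
  have hwpos : 0 < w n := by
    rcases (hwnn n).eq_or_lt with h | h
    · rw [← h, zero_mul] at hnpos; exact absurd hnpos (lt_irrefl _)
    · exact h
  have hF := (mul_pos_iff_of_pos_left hwpos).1 hnpos
  have hnu : nu X W a0 n ≠ 0 := by
    intro h
    simp only [hw] at hwpos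
    rw [h, zero_mul] at hwpos
    exact lt_irrefl _ hwpos
  have hXn : X < n := by
    by_contra hle
    push Not at hle
    apply hnu
    unfold nu
    rw [Phi_eq_zero_of_le (by positivity) (by rw [div_le_one hX0]; exact hle), ite_self]
  have hclass : n ≡ a0 [MOD W] := by
    by_contra h
    apply hnu
    unfold nu
    rw [if_neg h]
  have hn3 : (n : ℝ) ≤ 3 * X := by
    rw [Finset.mem_Icc] at hn
    exact (Nat.cast_le.2 hn.2).trans (Nat.floor_le (by linarith))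
  -- the primes of the window
  set N := T0.filter (fun t => (n + t).Prime) with hN
  have hthN : ∑ t ∈ T0, thn X (n + t) ≤ N.card := by
    have h1 : ∀ t ∈ T0, thn X (n + t) ≤ if (n + t).Prime then 1 else 0 := by
      intro t ht
      apply thn_le X (by linarith)
      have h2 := (hT0prop t ht).2.2.2.2
      have h3 := hff.2.2
      have h4 := hff.2.1
      push_cast
      have : c₂ * ff X ≤ X := by nlinarith
      linarith
    refine (Finset.sum_le_sum h1).trans ?_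
    rw [hN, Finset.card_filter]
    push_cast
    exact le_rfl
  have hNm : (N.card : ℝ) ≤ m := by
    rw [← hT0m]
    exact_mod_cast Finset.card_filter_le _ _
  have hpcN : pc n = ((prs r N).card : ℝ) := by
    have h1 : prs r N = (prs r T0).filter (fun x => (n + x.1).Prime ∧ (n + x.2).Prime) := by
      ext x
      have e1 : x ∈ prs r N ↔ (x ∈ N ×ˢ N ∧ r x.1 x.2) := by unfold prs; exact mem_filter
      have e2 : x ∈ prs r T0 ↔ (x ∈ T0 ×ˢ T0 ∧ r x.1 x.2) := by unfold prs; exact mem_filter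
      have e3 : ∀ s, s ∈ N ↔ (s ∈ T0 ∧ (n + s).Prime) := by intro s; rw [hN, mem_filter]
      rw [e1, mem_filter, e2, mem_product, mem_product, e3, e3]
      tauto
    rw [h1, Finset.card_filter]
    simp only [hpc]
    push_cast
    rfl
  have hpc0 : 0 ≤ pc n := by rw [hpcN]; exact Nat.cast_nonneg _
  have hTn := hTnn n
  have hm0 : (0 : ℝ) < m := by exact_mod_cast hm1'
  have hbd0 : 0 ≤ bd n := by simp only [hbd]; split_ifs <;> norm_num
  have hk0 : (0 : ℝ) ≤ k := by linarith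
  have hkpc : 0 ≤ κ * pc n := mul_nonneg hκ0.le hpc0
  have hmT : 0 ≤ m * T n := mul_nonneg hm0.le hTn
  have hmb : 0 ≤ m * bd n := mul_nonneg hm0.le hbd0
  have hT1 : T n < 1 := by
    by_contra h
    push Not at h
    have : (m : ℝ) * 1 ≤ m * T n := mul_le_mul_of_nonneg_left h hm0.le
    linarith
  have hnbad : n ∉ bad := by
    intro hb
    have : bd n = 1 := by simp only [hbd]; rw [if_pos hb]
    rw [this] at hF
    linarith
  refine ⟨n, hXn, hn3, hnbad, ?_, N, ?_, ?_, ?_⟩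
  · intro p hp hpq'
    obtain ⟨h1, h2⟩ := hpq p hp hpq'
    have h3 : n ≡ a0 [MOD p] := hclass.of_dvd h2
    exact (Nat.modEq_zero_iff_dvd.1 (h3.trans (Nat.modEq_zero_iff_dvd.2 h1)))
  · intro s
    rw [hN, mem_filter]
    constructor
    · rintro ⟨h1, h2⟩
      exact ⟨(hT0prop s h1).2.2.2.2, h2⟩
    · rintro ⟨hs, hp⟩
      refine ⟨?_, hp⟩
      by_contra hcon
      by_cases hcop : (a0 + s).Coprime W
      · have hsSv : s ∈ Sv := (hSv s).2 ⟨hs, hcop⟩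
        have hsU : s ∈ U := by
          rw [hU, Finset.mem_insert]
          exact Or.inr (Finset.mem_sdiff.2 ⟨hsSv, hcon⟩)
        obtain ⟨p, hpp, hpX, hpd⟩ := hTU n hT1 s hsU
        have h4 : p ∣ n + s := by exact_mod_cast hpd
        have h5 : p = n + s := (Nat.prime_dvd_prime_iff_eq hpp hp).1 h4
        have h6 : X ^ (1 / 100 : ℝ) ≤ X := by
          calc X ^ (1 / 100 : ℝ) ≤ X ^ (1 : ℝ) := Real.rpow_le_rpow_of_exponent_le (by linarith) (by norm_num)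
            _ = X := Real.rpow_one X
        have h8 : (n : ℝ) ≤ p := by
          rw [h5]; push_cast
          have : (0 : ℝ) ≤ s := Nat.cast_nonneg s
          linarith
        linarith
      · obtain ⟨p, hpp, h1, h2⟩ := Nat.Prime.not_coprime_iff_dvd.1 hcop
        have hpPW := (prime_dvd_WW hpp).1 h2
        have h3 : n + s ≡ a0 + s [MOD p] := (hclass.of_dvd h2).add_right s
        have h4 : p ∣ n + s := (Nat.modEq_zero_iff_dvd.1 (h3.trans (Nat.modEq_zero_iff_dvd.2 h1)))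
        have h5 : p = n + s := (Nat.prime_dvd_prime_iff_eq hpp hp).1 h4
        have h6 : p ≤ yy X := (mem_PW.1 hpPW).1
        have h7 : (p : ℝ) ≤ yy X := by exact_mod_cast h6
        have h8 : (n : ℝ) ≤ p := by
          rw [h5]; push_cast
          have : (0 : ℝ) ≤ s := Nat.cast_nonneg s
          linarith
        have h9 : (yy X : ℝ) ≤ l / 1000 := Nat.floor_le (by positivity)
        have h10 := Real.log_le_sub_one_of_pos hX0
        linarith
  · intro s hs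
    rw [hN, mem_filter] at hs
    exact (hT0prop s hs.1).2.2.1
  · rw [hpcN] at hF hkpc
    linarith

end Pool.Agent.TH779.AG
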